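import Pool.Agent.R394.Nark.Rad

/-!
# Embeddings `K_k → ℚ_p` for `p = p_j`
-/

set_option autoImplicit false

namespace Pool.Agent.R394.Nark

open Polynomial IntermediateField

lemma exists_padic_root (p N : ℕ) [hp : Fact p.Prime] (hN : 0 < N) (h2 : 2 < p)
    (hc : Nat.Coprime N (p * (p - 1))) : ∃ z : ℤ_[p], z ^ N = 2 := by
  have hcp : Nat.Coprime N p := Nat.Coprime.coprime_mul_right_right hc
  have hcp1 : Nat.Coprime N (p - 1) := Nat.Coprime.coprime_mul_left_right hc
  have h2ne : ((2 : ℕ) : ZMod p) ≠ 0 := by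
    intro h
    rw [ZMod.natCast_eq_zero_iff] at h
    exact absurd (Nat.le_of_dvd (by norm_num) h) (by omega)
  -- a root modulo p
  have hcard : (Nat.card (ZMod p)ˣ).Coprime N := by
    rw [Nat.card_eq_fintype_card, ZMod.card_units_eq_totient, Nat.totient_prime hp.out]
    exact hcp1.symm
  obtain ⟨v, hv⟩ := (powCoprime hcard).surjective (Units.mk0 _ h2ne)
  have hv' : ((v : ZMod p)) ^ N = 2 := by
    have := congrArg (Units.val) hv
    simpa using this
  set a : ℤ_[p] := ((v : ZMod p).val : ℤ_[p]) with ha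
  have hav : PadicInt.toZMod a = (v : ZMod p) := by
    rw [ha, map_natCast, ZMod.natCast_val, ZMod.cast_id]
  have hnorm_iff : ∀ x : ℤ_[p], ‖x‖ < 1 ↔ PadicInt.toZMod x = 0 := by
    intro x
    rw [PadicInt.norm_lt_one_iff_dvd, ← Ideal.mem_span_singleton, ← PadicInt.maximalIdeal_eq_span_p,
      ← PadicInt.ker_toZMod, RingHom.mem_ker]
  have hder : ‖(X ^ N - C 2 : ℤ_[p][X]).derivative.aeval a‖ = 1 := by
    have h1 : ¬ ‖(X ^ N - C 2 : ℤ_[p][X]).derivative.aeval a‖ < 1 := by
      rw [hnorm_iff]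
      simp only [derivative_sub, derivative_X_pow, derivative_C, sub_zero, map_mul, map_pow,
        aeval_X, aeval_C, Algebra.algebraMap_self, RingHom.id_apply, map_natCast, hav]
      intro h
      rcases mul_eq_zero.mp h with h | h
      · rw [ZMod.natCast_eq_zero_iff] at h
        have := Nat.Coprime.eq_one_of_dvd hcp.symm h
        omega
      · exact (pow_ne_zero (N - 1) v.ne_zero) h
    exact le_antisymm (PadicInt.norm_le_one _) (not_lt.mp h1)
  have hval : ‖(X ^ N - C 2 : ℤ_[p][X]).aeval a‖ < ‖(X ^ N - C 2 : ℤ_[p][X]).derivative.aeval a‖ ^ 2 := by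
    rw [hder, one_pow, hnorm_iff]
    simp only [map_sub, map_pow, aeval_X, aeval_C, Algebra.algebraMap_self, RingHom.id_apply, hav,
      hv', map_ofNat, sub_self]
  obtain ⟨z, hz, -⟩ := hensels_lemma hval
  refine ⟨z, ?_⟩
  simpa [sub_eq_zero] using hz

lemma exists_emb (k j : ℕ) [hp : Fact (pp j).Prime] : Nonempty (KK k →+* ℚ_[pp j]) := by
  obtain ⟨z, hz⟩ := exists_padic_root (pp j) (Nn k) (Nn_pos k)
    (by have := two_lt_el j; have := el_lt_pp j; omega) (Nn_coprime k j)
  have hroot : ((z : ℚ_[pp j])) ∈ (minpoly ℚ (th k)).aroots ℚ_[pp j] := by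
    rw [mem_aroots]
    refine ⟨minpoly.ne_zero (th_integral k), ?_⟩
    rw [minpoly_th]
    have : ((z : ℚ_[pp j])) ^ Nn k = 2 := by
      have h1 := congrArg (algebraMap ℤ_[pp j] ℚ_[pp j]) hz
      rw [map_pow, map_ofNat] at h1
      exact h1
    simp [this]
  exact ⟨((algHomAdjoinIntegralEquiv ℚ (th_integral k)).symm ⟨(z : ℚ_[pp j]), hroot⟩).toRingHom⟩

end Pool.Agent.R394.Nark
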