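import Mathlib

/-!
# The height of a root of a power of `2`
-/

set_option autoImplicit false

namespace Pool.Agent.R394.Nark

open IntermediateField Height

lemma mulHeight_two (K : Type*) [Field K] [NumberField K] :
    mulHeight₁ (2 : K) = 2 ^ Module.finrank ℚ K := by
  rw [NumberField.mulHeight₁_eq]
  have h1 : ∀ v : NumberField.InfinitePlace K, max (v (2 : K)) 1 = 2 := by
    intro v
    have : v (2 : K) = 2 := by
      rw [← v.norm_embedding_eq, map_ofNat]
      norm_num
    rw [this]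
    norm_num
  have h2 : ∀ v : NumberField.FinitePlace K, max (v (2 : K)) 1 = 1 := by
    intro v
    apply max_eq_right
    rw [← v.norm_embedding_eq]
    have := NumberField.FinitePlace.norm_le_one (K := K) v.maximalIdeal (2 : NumberField.RingOfIntegers K)
    rw [map_ofNat] at this
    exact this
  simp only [h1, h2, finprod_one, mul_one]
  rw [Finset.prod_pow_eq_pow_sum, NumberField.InfinitePlace.sum_mult_eq]

lemma absLogHeight_root {L : Type*} [Field L] [CharZero L] (x : L) (N m : ℕ) (hN : 0 < N)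
    (hx : x ^ N = 2 ^ m) :
    NumberField.absLogHeight₁ x = m * Real.log 2 / N := by
  have hint : IsIntegral ℚ x := by
    refine ⟨Polynomial.X ^ N - Polynomial.C (2 ^ m), Polynomial.monic_X_pow_sub_C _ hN.ne', ?_⟩
    simp [hx]
  rw [NumberField.absLogHeight₁, NumberField.absMulHeight₁, dif_pos hint]
  haveI : FiniteDimensional ℚ ℚ⟮x⟯ := adjoin.finiteDimensional hint
  haveI : NumberField ℚ⟮x⟯ := {}
  have hg : (AdjoinSimple.gen ℚ x) ^ N = 2 ^ m := by
    apply (algebraMap ℚ⟮x⟯ L).injective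
    rw [map_pow, map_pow, map_ofNat, AdjoinSimple.algebraMap_gen, hx]
  have h1 : mulHeight₁ (AdjoinSimple.gen ℚ x) ^ N = 2 ^ (Module.finrank ℚ ℚ⟮x⟯ * m) := by
    rw [← mulHeight₁_pow, hg, mulHeight₁_pow, mulHeight_two, ← pow_mul]
  have h2 : (N : ℝ) * Real.log (mulHeight₁ (AdjoinSimple.gen ℚ x)) =
      (Module.finrank ℚ ℚ⟮x⟯ * m : ℕ) * Real.log 2 := by
    rw [← Real.log_pow, h1, Real.log_pow]
  have hpos : 0 < mulHeight₁ (AdjoinSimple.gen ℚ x) := mulHeight₁_pos _
  have hD : (0 : ℝ) < Module.finrank ℚ ℚ⟮x⟯ := by exact_mod_cast Module.finrank_pos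
  have hN' : (0 : ℝ) < N := by exact_mod_cast hN
  have h3 : Real.log (mulHeight₁ (AdjoinSimple.gen ℚ x)) =
      (Module.finrank ℚ ℚ⟮x⟯ * m : ℕ) * Real.log 2 / N := by
    field_simp
    rw [mul_comm, h2]
  have h4 : Real.log (mulHeight₁ (AdjoinSimple.gen ℚ x) ^ ((Module.finrank ℚ ℚ⟮x⟯ : ℝ)⁻¹)) =
      m * Real.log 2 / N := by
    rw [Real.log_rpow hpos, h3]
    push_cast
    field_simp
  convert h4

end Pool.Agent.R394.Nark
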