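import Mathlib

/-!
# Complete backward orbits of a polynomial in a number field consist of periodic points
-/

set_option autoImplicit false

namespace Pool.Agent.R394.Nark

open Polynomial

lemma exists_escape (g : ℂ[X]) (hd : 2 ≤ g.natDegree) :
    ∃ R : ℝ, ∀ z : ℂ, R < ‖z‖ → ‖z‖ ≤ ‖g.eval z‖ := by
  have hdiv : 0 < (divX g).degree := by
    rw [← natDegree_pos_iff_degree_pos, natDegree_divX_eq_natDegree_tsub_one]
    omega
  have ht := Polynomial.tendsto_norm_atTop (divX g) hdiv (l := Bornology.cobounded ℂ)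
    (z := fun z => z) tendsto_norm_cobounded_atTop
  obtain ⟨R, hR⟩ : ∃ R : ℝ, ∀ z : ℂ, R < ‖z‖ → 2 ≤ ‖(divX g).eval z‖ := by
    have h2 := ht.eventually (Filter.eventually_ge_atTop 2)
    rw [(Metric.hasBasis_cobounded_compl_closedBall (0 : ℂ)).eventually_iff] at h2
    obtain ⟨R, -, hR⟩ := h2
    exact ⟨R, fun z hz => hR (by simpa using hz)⟩
  refine ⟨max R ‖g.coeff 0‖, fun z hz => ?_⟩
  have hz1 : R < ‖z‖ := lt_of_le_of_lt (le_max_left _ _) hz
  have hz2 : ‖g.coeff 0‖ < ‖z‖ := lt_of_le_of_lt (le_max_right _ _) hz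
  have hg : g.eval z = (divX g).eval z * z + g.coeff 0 := by
    conv_lhs => rw [← divX_mul_X_add g]
    simp
  rw [hg]
  have h1 : ‖(divX g).eval z * z‖ - ‖g.coeff 0‖ ≤ ‖(divX g).eval z * z + g.coeff 0‖ := by
    have := norm_sub_norm_le ((divX g).eval z * z) (-(g.coeff 0))
    rw [norm_neg, sub_neg_eq_add] at this
    exact this
  have h2 : 2 * ‖z‖ ≤ ‖(divX g).eval z * z‖ := by
    rw [norm_mul]
    exact mul_le_mul_of_nonneg_right (hR z hz1) (norm_nonneg _)
  linarith

variable {K : Type*} [Field K]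

lemma arch_bound (f : K[X]) (hd : 2 ≤ f.natDegree) (x : ℕ → K)
    (hx : ∀ j, f.eval (x (j + 1)) = x j) (φ : K →+* ℂ) : ∃ B : ℝ, ∀ j, ‖φ (x j)‖ ≤ B := by
  obtain ⟨R, hR⟩ := exists_escape (f.map φ) (by rw [natDegree_map]; exact hd)
  refine ⟨max R ‖φ (x 0)‖, fun j => ?_⟩
  induction j with
  | zero => exact le_max_right _ _
  | succ j ih =>
    by_contra h
    rw [not_le] at h
    have h1 := hR (φ (x (j + 1))) (lt_of_le_of_lt (le_max_left _ _) h)
    have h2 : (f.map φ).eval (φ (x (j + 1))) = φ (x j) := by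
      rw [eval_map_apply, hx]
    rw [h2] at h1
    exact absurd (h1.trans ih) (not_le.mpr h)

lemma integral_step [NumberField K] (f : K[X]) (hd : 2 ≤ f.natDegree) (M : ℤ)
    (hM : ∀ i, IsIntegral ℤ (M • (f.coeff i / f.leadingCoeff)))
    (hM' : IsIntegral ℤ (M • (1 / f.leadingCoeff))) (x y : K) (hxy : f.eval x = y)
    (hy : IsIntegral ℤ (M • y)) : IsIntegral ℤ (M • x) := by
  set d := f.natDegree with hdd
  have hlc : f.leadingCoeff ≠ 0 := by
    intro h
    rw [leadingCoeff_eq_zero] at h
    rw [hdd, h, natDegree_zero] at hd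
    omega
  let A := integralClosure ℤ K
  let c : ℕ → A := fun i => ⟨(M : K) ^ (d - i - 1) * (M • (f.coeff i / f.leadingCoeff)), by
    refine IsIntegral.mul (IsIntegral.pow ?_ _) (hM i)
    simpa using (isIntegral_algebraMap (R := ℤ) (A := K) (x := M))⟩
  let c' : A := ⟨(M : K) ^ (d - 2) * ((M • y) * (M • (1 / f.leadingCoeff))), by
    refine IsIntegral.mul (IsIntegral.pow ?_ _) (hy.mul hM')
    simpa using (isIntegral_algebraMap (R := ℤ) (A := K) (x := M))⟩
  let Q : A[X] := (∑ i ∈ Finset.range d, C (c i) * X ^ i) - C c'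
  have hQ : Q.degree < d := by
    refine lt_of_le_of_lt (degree_sub_le _ _) (max_lt ?_ ?_)
    · refine lt_of_le_of_lt (degree_sum_le _ _) ?_
      rw [Finset.sup_lt_iff (by exact WithBot.bot_lt_coe d)]
      intro i hi
      rw [Finset.mem_range] at hi
      exact lt_of_le_of_lt (degree_C_mul_X_pow_le _ _) (by exact_mod_cast hi)
    · refine lt_of_le_of_lt degree_C_le ?_
      exact_mod_cast (by omega : 0 < d)
  have hmonic : (X ^ d + Q).Monic := monic_X_pow_add hQ
  have hroot : IsIntegral A (M • x) := by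
    refine ⟨X ^ d + Q, hmonic, ?_⟩
    simp only [Q, eval₂_add, eval₂_sub, eval₂_pow, eval₂_X, eval₂_C, eval₂_finset_sum, eval₂_mul]
    have hc : ∀ i, algebraMap A K (c i) = (M : K) ^ (d - i - 1) * (M • (f.coeff i / f.leadingCoeff)) :=
      fun i => rfl
    have hc' : algebraMap A K c' = (M : K) ^ (d - 2) * ((M • y) * (M • (1 / f.leadingCoeff))) := rfl
    rw [hc']
    simp only [hc]
    have hsum : ∑ i ∈ Finset.range d,
        (M : K) ^ (d - i - 1) * (M • (f.coeff i / f.leadingCoeff)) * (M • x) ^ i =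
        (M : K) ^ d / f.leadingCoeff * ∑ i ∈ Finset.range d, f.coeff i * x ^ i := by
      rw [Finset.mul_sum]
      refine Finset.sum_congr rfl fun i hi => ?_
      rw [Finset.mem_range] at hi
      have e : (M : K) ^ d = (M : K) ^ (d - i - 1) * M * (M : K) ^ i := by
        rw [← pow_succ, ← pow_add]
        congr 1
        omega
      simp only [zsmul_eq_mul, mul_pow]
      rw [e]
      field_simp
    rw [hsum]
    have hev : y = ∑ i ∈ Finset.range d, f.coeff i * x ^ i + f.leadingCoeff * x ^ d := by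
      rw [← hxy, eval_eq_sum_range, Finset.sum_range_succ]
      rfl
    have e2 : (M : K) ^ d = (M : K) ^ (d - 2) * M * M := by
      rw [← pow_succ, ← pow_succ]
      congr 1
      omega
    have hS : ∑ i ∈ Finset.range d, f.coeff i * x ^ i = y - f.leadingCoeff * x ^ d := by
      rw [hev]; ring
    rw [hS]
    simp only [zsmul_eq_mul, mul_pow]
    rw [e2]
    field_simp
    ring
  exact isIntegral_trans _ hroot

/-- **Complete backward orbits in number fields.** -/
theorem periodic_of_backward [NumberField K] (f : K[X]) (hd : 2 ≤ f.natDegree) (x : ℕ → K)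
    (hx : ∀ j, f.eval (x (j + 1)) = x j) :
    ∃ n, 0 < n ∧ (fun z => f.eval z)^[n] (x 0) = x 0 := by
  classical
  -- the common denominator
  haveI : Algebra.IsAlgebraic ℤ K := (IsFractionRing.comap_isAlgebraic_iff (A := ℤ) (K := ℚ)
    (C := K)).mpr inferInstance
  obtain ⟨M, hM0, hM⟩ := Algebra.IsAlgebraic.exists_integral_multiples ℤ (A := K)
    (((Finset.range (f.natDegree + 1)).image fun i => f.coeff i / f.leadingCoeff) ∪
      {1 / f.leadingCoeff, x 0})
  have hMi : ∀ i, IsIntegral ℤ (M • (f.coeff i / f.leadingCoeff)) := by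
    intro i
    by_cases hi : i ≤ f.natDegree
    · apply hM
      rw [Finset.mem_union]
      left
      rw [Finset.mem_image]
      exact ⟨i, Finset.mem_range.mpr (by omega), rfl⟩
    · rw [coeff_eq_zero_of_natDegree_lt (by omega)]
      simp [isIntegral_zero]
  have hM' : IsIntegral ℤ (M • (1 / f.leadingCoeff)) := hM _ (by simp)
  have hMx : IsIntegral ℤ (M • x 0) := hM _ (by simp)
  have hint : ∀ j, IsIntegral ℤ (M • x j) := by
    intro j
    induction j with
    | zero => exact hMx
    | succ j ih => exact integral_step f hd M hMi hM' _ _ (hx j) ih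
  -- archimedean bound
  choose B hB using arch_bound f hd x hx
  obtain ⟨C, hC⟩ : ∃ C : ℝ, ∀ φ : K →+* ℂ, B φ ≤ C :=
    ⟨∑ φ : K →+* ℂ, |B φ|, fun φ => (le_abs_self _).trans
      (Finset.single_le_sum (f := fun φ => |B φ|) (fun _ _ => abs_nonneg _) (Finset.mem_univ φ))⟩
  have hfin := NumberField.Embeddings.finite_of_norm_le K ℂ (|(M : ℝ)| * C)
  have hmem : ∀ j, M • x j ∈ {y : K | IsIntegral ℤ y ∧ ∀ φ : K →+* ℂ, ‖φ y‖ ≤ |(M : ℝ)| * C} := by
    intro j
    refine ⟨hint j, fun φ => ?_⟩
    rw [zsmul_eq_mul, map_mul, norm_mul, map_intCast]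
    have h1 : ‖((M : ℤ) : ℂ)‖ = |(M : ℝ)| := by
      rw [Complex.norm_intCast]
    rw [h1]
    exact mul_le_mul_of_nonneg_left ((hB φ j).trans (hC φ)) (abs_nonneg _)
  have hninj : ¬ Function.Injective x := by
    intro hinj
    have hinj' : Function.Injective (fun j => M • x j) := by
      intro i j hij
      apply hinj
      have : (M : K) * x i = (M : K) * x j := by simpa [zsmul_eq_mul] using hij
      exact mul_left_cancel₀ (by exact_mod_cast hM0) this
    exact Set.infinite_of_injective_forall_mem hinj' hmem hfin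
  have hback : ∀ k j, (fun z => f.eval z)^[k] (x (j + k)) = x j := by
    intro k
    induction k with
    | zero => intro j; rfl
    | succ k ih =>
      intro j
      rw [Function.iterate_succ_apply, show j + (k + 1) = (j + k) + 1 by ring]
      simp only [hx]
      exact ih j
  have main : ∀ i j, i < j → x i = x j → ∃ n, 0 < n ∧ (fun z => f.eval z)^[n] (x 0) = x 0 := by
    intro i j hij he
    refine ⟨j - i, by omega, ?_⟩
    have h1 : (fun z => f.eval z)^[j - i] (x j) = x j := by
      have := hback (j - i) i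
      rw [show i + (j - i) = j by omega] at this
      rw [this, he]
    have h2 : (fun z => f.eval z)^[j] (x j) = x 0 := by
      have := hback j 0
      rwa [zero_add] at this
    calc (fun z => f.eval z)^[j - i] (x 0)
        = (fun z => f.eval z)^[j - i] ((fun z => f.eval z)^[j] (x j)) := by rw [h2]
      _ = (fun z => f.eval z)^[j] ((fun z => f.eval z)^[j - i] (x j)) := by
          rw [← Function.iterate_add_apply, ← Function.iterate_add_apply, add_comm]
      _ = x 0 := by rw [h1, h2]
  rw [Function.Injective] at hninj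
  push_neg at hninj
  obtain ⟨i, j, he, hne⟩ := hninj
  rcases lt_or_gt_of_ne hne with h | h
  · exact main i j h he
  · exact main j i h he.symm

end Pool.Agent.R394.Nark
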