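import Mathlib

/-!
# Periodic points of polynomial maps on `ℤ_p`: a uniform bound for the period
-/

set_option autoImplicit false

namespace Pool.Agent.R394.Nark

open Polynomial

section ring

variable {R : Type*} [CommRing R]

/-- compositional iterate as a polynomial -/
noncomputable def itp (f : R[X]) (n : ℕ) : R[X] := (f.comp)^[n] X

lemma itp_zero (f : R[X]) : itp f 0 = X := rfl

lemma itp_succ (f : R[X]) (n : ℕ) : itp f (n + 1) = f.comp (itp f n) := by
  simp [itp, Function.iterate_succ_apply']

lemma itp_eval (f : R[X]) (n : ℕ) (x : R) : (itp f n).eval x = (fun z => f.eval z)^[n] x := by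
  induction n with
  | zero => simp [itp]
  | succ n ih => rw [itp_succ, eval_comp, ih, Function.iterate_succ_apply']

lemma itp_der (f : R[X]) (n : ℕ) (q x : R) (hx : q ∣ f.eval x - x) :
    q ∣ (itp f n).eval x - x ∧ q ∣ (itp f n).derivative.eval x - (f.derivative.eval x) ^ n := by
  induction n with
  | zero => simp [itp_zero]
  | succ n ih =>
    obtain ⟨h1, h2⟩ := ih
    constructor
    · rw [itp_succ, eval_comp]
      have h3 : q ∣ f.eval ((itp f n).eval x) - f.eval x :=
        h1.trans (sub_dvd_eval_sub _ _ _)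
      have := dvd_add h3 hx
      simpa using this
    · rw [itp_succ, derivative_comp, eval_mul, eval_comp]
      have h3 : q ∣ f.derivative.eval ((itp f n).eval x) - f.derivative.eval x :=
        h1.trans (sub_dvd_eval_sub _ _ _)
      have e : eval x (derivative (itp f n)) * eval (eval x (itp f n)) (derivative f) -
          eval x (derivative f) ^ (n + 1) =
          (eval x (derivative (itp f n)) - eval x (derivative f) ^ n) *
            eval (eval x (itp f n)) (derivative f) +
          eval x (derivative f) ^ n *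
            (eval (eval x (itp f n)) (derivative f) - eval x (derivative f)) := by ring
      rw [e]
      exact dvd_add (dvd_mul_of_dvd_left h2 _) (dvd_mul_of_dvd_right h3 _)

end ring

section padic

variable {p : ℕ} [hp : Fact p.Prime]

/-- `G(x) ≡ x`, `G'(x) ≡ 1` modulo `p²`, then `G^k(x) - x = δ (k + p² w)`. -/
lemma iter_expand (G : ℤ_[p][X]) (x : ℤ_[p]) (h1 : (p : ℤ_[p]) ^ 2 ∣ G.eval x - x)
    (h2 : (p : ℤ_[p]) ^ 2 ∣ G.derivative.eval x - 1) (k : ℕ) :
    ∃ w : ℤ_[p], (fun z => G.eval z)^[k] x - x = (G.eval x - x) * ((k : ℤ_[p]) + (p : ℤ_[p]) ^ 2 * w) := by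
  induction k with
  | zero => exact ⟨0, by simp⟩
  | succ k ih =>
    obtain ⟨w, hw⟩ := ih
    rw [Function.iterate_succ_apply']
    set y := (fun z => G.eval z)^[k] x - x with hy
    have hxy : (fun z => G.eval z)^[k] x = x + y := by rw [hy]; ring
    rw [hxy]
    obtain ⟨V, hV⟩ := Polynomial.binomExpansion G x y
    obtain ⟨u, hu⟩ := h2
    obtain ⟨s, hs⟩ := h1
    have hder : G.derivative.eval x = 1 + (p : ℤ_[p]) ^ 2 * u := by rw [← hu]; ring
    simp only [hV, hder]
    refine ⟨w + (u + V * s * (k + p ^ 2 * w)) * (k + p ^ 2 * w), ?_⟩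
    have hG : G.eval x = x + p ^ 2 * s := by rw [← hs]; ring
    rw [hG] at hw ⊢
    rw [hw]
    push_cast
    ring

lemma fix_of_periodic (n : ℕ) : ∀ (G : ℤ_[p][X]) (x : ℤ_[p]),
    (p : ℤ_[p]) ^ 2 ∣ G.eval x - x → (p : ℤ_[p]) ^ 2 ∣ G.derivative.eval x - 1 →
    0 < n → (fun z => G.eval z)^[n] x = x → G.eval x = x := by
  induction n using Nat.strong_induction_on with
  | _ n ih =>
    intro G x h1 h2 hn hper
    have hp0 : (p : ℤ_[p]) ≠ 0 := by exact_mod_cast hp.out.ne_zero
    have hpu : ¬ IsUnit (p : ℤ_[p]) := PadicInt.p_nonunit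
    by_cases hdvd : p ∣ n
    · obtain ⟨m, rfl⟩ := hdvd
      have hm : 0 < m := Nat.pos_of_mul_pos_left hn |> fun h => by
        rcases Nat.eq_zero_or_pos m with h0 | h0
        · simp [h0] at hn
        · exact h0
      have hlt : m < p * m := by
        have := hp.out.two_le
        nlinarith
      have hd := itp_der G p ((p : ℤ_[p]) ^ 2) x h1
      have h1' : (p : ℤ_[p]) ^ 2 ∣ (itp G p).eval x - x := hd.1
      have h2' : (p : ℤ_[p]) ^ 2 ∣ (itp G p).derivative.eval x - 1 := by
        have h3 : (p : ℤ_[p]) ^ 2 ∣ (G.derivative.eval x) ^ p - 1 := by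
          have := h2.trans (sub_dvd_pow_sub_pow (G.derivative.eval x) 1 p)
          simpa using this
        have := dvd_add hd.2 h3
        simpa using this
      have hfun : (fun z => (itp G p).eval z) = (fun z => G.eval z)^[p] := by
        funext z; exact itp_eval G p z
      have hper' : (fun z => (itp G p).eval z)^[m] x = x := by
        rw [hfun, ← Function.iterate_mul]
        exact hper
      have hfix := ih m hlt (itp G p) x h1' h2' hm hper'
      rw [itp_eval] at hfix
      obtain ⟨w, hw⟩ := iter_expand G x h1 h2 p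
      rw [hfix, sub_self] at hw
      have hne : ((p : ℤ_[p]) + (p : ℤ_[p]) ^ 2 * w) ≠ 0 := by
        intro h0
        have h4 : (p : ℤ_[p]) * (1 + p * w) = 0 := by rw [← h0]; ring
        rcases mul_eq_zero.mp h4 with h5 | h5
        · exact hp0 h5
        · apply hpu
          exact IsUnit.of_mul_eq_one (-w) (by linear_combination -h5)
      rcases mul_eq_zero.mp hw.symm with h | h
      · exact sub_eq_zero.mp h
      · exact absurd h hne
    · obtain ⟨w, hw⟩ := iter_expand G x h1 h2 n
      rw [hper, sub_self] at hw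
      have hne : ((n : ℤ_[p]) + (p : ℤ_[p]) ^ 2 * w) ≠ 0 := by
        intro h0
        have h4 : (p : ℤ_[p]) ∣ (n : ℤ_[p]) := ⟨-(p * w), by linear_combination h0⟩
        have h5 : ‖((n : ℕ) : ℤ_[p])‖ < 1 := by
          rw [PadicInt.norm_lt_one_iff_dvd]; exact h4
        have h6 : ‖((n : ℤ) : ℤ_[p])‖ < 1 := by simpa using h5
        rw [PadicInt.norm_int_lt_one_iff_dvd] at h6
        exact hdvd (by exact_mod_cast h6)
      rcases mul_eq_zero.mp hw.symm with h | h
      · exact sub_eq_zero.mp h
      · exact absurd h hne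

lemma one_add_ne (w : ℤ_[p]) : (1 + (p : ℤ_[p]) * w) ≠ 0 := by
  intro h5
  exact (PadicInt.p_nonunit : ¬ IsUnit (p : ℤ_[p]))
    (IsUnit.of_mul_eq_one (-w) (by linear_combination -h5))

lemma fix_of_contract (g : ℤ_[p][X]) (x : ℤ_[p]) (h1 : (p : ℤ_[p]) ∣ g.eval x - x)
    (h2 : (p : ℤ_[p]) ∣ g.derivative.eval x) (n : ℕ) (hn : 0 < n)
    (hper : (fun z => g.eval z)^[n] x = x) : g.eval x = x := by
  have key : ∀ k : ℕ, ∃ w : ℤ_[p], (fun z => g.eval z)^[k + 1] x - x =
      (g.eval x - x) * (1 + p * w) := by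
    intro k
    induction k with
    | zero => exact ⟨0, by simp⟩
    | succ k ih =>
      obtain ⟨w, hw⟩ := ih
      rw [Function.iterate_succ_apply']
      set y := (fun z => g.eval z)^[k + 1] x - x with hy
      have hxy : (fun z => g.eval z)^[k + 1] x = x + y := by rw [hy]; ring
      rw [hxy]
      obtain ⟨V, hV⟩ := Polynomial.binomExpansion g x y
      obtain ⟨u, hu⟩ := h2
      obtain ⟨s, hs⟩ := h1
      simp only [hV, hu]
      refine ⟨(1 + p * w) * (u + V * s * (1 + p * w)), ?_⟩
      have hG : g.eval x = x + p * s := by rw [← hs]; ring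
      rw [hG] at hw ⊢
      rw [hw]
      ring
  obtain ⟨k, rfl⟩ : ∃ k, n = k + 1 := ⟨n - 1, by omega⟩
  obtain ⟨w, hw⟩ := key k
  rw [hper, sub_self] at hw
  rcases mul_eq_zero.mp hw.symm with h | h
  · exact sub_eq_zero.mp h
  · exact absurd h (one_add_ne w)

lemma dvd_iterate_sub (f : ℤ_[p][X]) (q a b : ℤ_[p]) (h : q ∣ a - b) (k : ℕ) :
    q ∣ (fun z => f.eval z)^[k] a - (fun z => f.eval z)^[k] b := by
  induction k with
  | zero => simpa using h
  | succ k ih =>
    rw [Function.iterate_succ_apply', Function.iterate_succ_apply']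
    exact ih.trans (sub_dvd_eval_sub _ _ _)

lemma exists_return (f : ℤ_[p][X]) (x : ℤ_[p]) (n : ℕ) (hn : 0 < n)
    (hper : (fun z => f.eval z)^[n] x = x) :
    ∃ m, 0 < m ∧ m ≤ p ^ 2 ∧ (p : ℤ_[p]) ^ 2 ∣ (fun z => f.eval z)^[m] x - x := by
  set F := (fun z => f.eval z) with hF
  -- pigeonhole modulo p²
  have hcard : Fintype.card (ZMod (p ^ 2)) < Fintype.card (Fin (p ^ 2 + 1)) := by
    haveI : NeZero (p ^ 2) := ⟨pow_ne_zero _ hp.out.ne_zero⟩
    rw [ZMod.card, Fintype.card_fin]; omega
  haveI : NeZero (p ^ 2) := ⟨pow_ne_zero _ hp.out.ne_zero⟩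
  obtain ⟨i, j, hij, he⟩ := Fintype.exists_ne_map_eq_of_card_lt
    (fun i : Fin (p ^ 2 + 1) => PadicInt.toZModPow 2 (F^[(i : ℕ)] x)) hcard
  have main : ∀ i j : ℕ, i < j → j ≤ p ^ 2 →
      PadicInt.toZModPow 2 (F^[i] x) = PadicInt.toZModPow 2 (F^[j] x) →
      ∃ m, 0 < m ∧ m ≤ p ^ 2 ∧ (p : ℤ_[p]) ^ 2 ∣ F^[m] x - x := by
    intro i j hij hj he
    refine ⟨j - i, by omega, by omega, ?_⟩
    have h1 : (p : ℤ_[p]) ^ 2 ∣ F^[j] x - F^[i] x := by
      have : F^[j] x - F^[i] x ∈ RingHom.ker (PadicInt.toZModPow 2 : ℤ_[p] →+* ZMod (p ^ 2)) := by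
        rw [RingHom.mem_ker, map_sub, he, sub_self]
      rw [PadicInt.ker_toZModPow, Ideal.mem_span_singleton] at this
      exact this
    have hper' : ∀ t, F^[n * t] x = x := by
      intro t
      rw [Function.iterate_mul]
      exact Function.iterate_fixed hper t
    have h2 := dvd_iterate_sub f ((p : ℤ_[p]) ^ 2) _ _ h1 (n * i - i)
    rw [← hF, ← Function.iterate_add_apply, ← Function.iterate_add_apply] at h2
    have hni : i ≤ n * i := Nat.le_mul_of_pos_left i hn
    have e1 : n * i - i + i = n * i := by omega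
    have e2 : n * i - i + j = (j - i) + n * i := by omega
    rw [e1, e2, Function.iterate_add_apply, hper'] at h2
    exact h2
  rcases lt_or_gt_of_ne (fun h : (i : ℕ) = j => hij (Fin.ext h)) with h | h
  · exact main i j h (by omega) he
  · exact main j i h (by omega) he.symm

/-- **Uniform period bound on `ℤ_p`.** -/
theorem period_bound (f : ℤ_[p][X]) (x : ℤ_[p]) (n : ℕ) (hn : 0 < n)
    (hper : (fun z => f.eval z)^[n] x = x) :
    (fun z => f.eval z)^[(p ^ 2).factorial * (p * (p - 1))] x = x := by
  obtain ⟨m, hm0, hm, hdvd⟩ := exists_return f x n hn hper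
  have hper' : ∀ t, (fun z => f.eval z)^[n * t] x = x := by
    intro t
    rw [Function.iterate_mul]
    exact Function.iterate_fixed hper t
  set g := itp f m with hg
  have hgf : (fun z => g.eval z) = (fun z => f.eval z)^[m] := by
    funext z; exact itp_eval f m z
  have hgx : (p : ℤ_[p]) ^ 2 ∣ g.eval x - x := by
    have h0 : g.eval x = (fun z => f.eval z)^[m] x := congrFun hgf x
    rw [h0]; exact hdvd
  have hgper : (fun z => g.eval z)^[n] x = x := by
    rw [hgf, ← Function.iterate_mul, mul_comm]; exact hper' m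
  have main : (fun z => f.eval z)^[m * (p * (p - 1))] x = x := by
    by_cases hl : (p : ℤ_[p]) ∣ g.derivative.eval x
    · have h1 : (p : ℤ_[p]) ∣ g.eval x - x := (dvd_pow_self _ two_ne_zero).trans hgx
      have hfix := fix_of_contract g x h1 hl n hn hgper
      have : (fun z => f.eval z)^[m] x = x := by
        rw [← hgf]; exact hfix
      rw [Function.iterate_mul]
      exact Function.iterate_fixed this _
    · set r := p * (p - 1) with hr
      have hd := itp_der g r ((p : ℤ_[p]) ^ 2) x hgx
      have hlam : (p : ℤ_[p]) ^ 2 ∣ (g.derivative.eval x) ^ r - 1 := by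
        have hu : IsUnit (g.derivative.eval x) := by
          rw [PadicInt.isUnit_iff]
          have h3 : ¬ ‖g.derivative.eval x‖ < 1 := by
            rw [PadicInt.norm_lt_one_iff_dvd]; exact hl
          exact le_antisymm (PadicInt.norm_le_one _) (not_lt.mp h3)
        have : (g.derivative.eval x) ^ r - 1 ∈
            RingHom.ker (PadicInt.toZModPow 2 : ℤ_[p] →+* ZMod (p ^ 2)) := by
          rw [RingHom.mem_ker, map_sub, map_pow, map_one]
          obtain ⟨v, hv⟩ := hu.map (PadicInt.toZModPow 2 : ℤ_[p] →+* ZMod (p ^ 2))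
          rw [← hv]
          have h4 : r = Nat.totient (p ^ 2) := by
            rw [Nat.totient_prime_pow hp.out (by norm_num), hr]
            norm_num
          rw [h4]
          have h5 := ZMod.pow_totient v
          have h6 : ((v ^ Nat.totient (p ^ 2) : (ZMod (p ^ 2))ˣ) : ZMod (p ^ 2)) = 1 := by
            rw [h5]; rfl
          rw [Units.val_pow_eq_pow_val] at h6
          rw [h6, sub_self]
        rw [PadicInt.ker_toZModPow, Ideal.mem_span_singleton] at this
        exact this
      have h2' : (p : ℤ_[p]) ^ 2 ∣ (itp g r).derivative.eval x - 1 := by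
        have := dvd_add hd.2 hlam
        simpa using this
      have hfun : (fun z => (itp g r).eval z) = (fun z => g.eval z)^[r] := by
        funext z; exact itp_eval g r z
      have hper2 : (fun z => (itp g r).eval z)^[n] x = x := by
        rw [hfun, ← Function.iterate_mul, mul_comm, Function.iterate_mul]
        exact Function.iterate_fixed hgper r
      have hfix := fix_of_periodic n (itp g r) x hd.1 h2' hn hper2
      rw [itp_eval, hgf, ← Function.iterate_mul] at hfix
      exact hfix
  obtain ⟨c, hc⟩ := Nat.dvd_factorial hm0 hm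
  rw [hc, show m * c * (p * (p - 1)) = (m * (p * (p - 1))) * c by ring, Function.iterate_mul]
  exact Function.iterate_fixed main c

end padic

end Pool.Agent.R394.Nark
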