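import Pool.Agent.R394.Nark.Padic

/-!
# Periodic points in a field embedded in `ℚ_p`
-/

set_option autoImplicit false

namespace Pool.Agent.R394.Nark

open Polynomial

variable {p : ℕ} [hp : Fact p.Prime]

lemma norm_eval_of_one_lt (F : ℚ_[p][X]) (hd : 0 < F.natDegree) (hint : ∀ i, ‖F.coeff i‖ ≤ 1)
    (hlead : ‖F.leadingCoeff‖ = 1) (z : ℚ_[p]) (hz : 1 < ‖z‖) :
    ‖F.eval z‖ = ‖z‖ ^ F.natDegree := by
  rw [eval_eq_sum_range, Finset.sum_range_succ]
  have htop : ‖F.coeff F.natDegree * z ^ F.natDegree‖ = ‖z‖ ^ F.natDegree := by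
    rw [norm_mul, norm_pow]
    have : ‖F.coeff F.natDegree‖ = 1 := hlead
    rw [this, one_mul]
  have hlow : ‖∑ i ∈ Finset.range F.natDegree, F.coeff i * z ^ i‖ ≤ ‖z‖ ^ (F.natDegree - 1) := by
    apply IsUltrametricDist.norm_sum_le_of_forall_le_of_nonneg (by positivity)
    intro i hi
    rw [Finset.mem_range] at hi
    rw [norm_mul, norm_pow]
    calc ‖F.coeff i‖ * ‖z‖ ^ i ≤ 1 * ‖z‖ ^ i := by
          apply mul_le_mul_of_nonneg_right (hint i) (by positivity)
      _ = ‖z‖ ^ i := one_mul _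
      _ ≤ ‖z‖ ^ (F.natDegree - 1) := pow_le_pow_right₀ hz.le (by omega)
  have hlt : ‖∑ i ∈ Finset.range F.natDegree, F.coeff i * z ^ i‖ <
      ‖F.coeff F.natDegree * z ^ F.natDegree‖ := by
    rw [htop]
    refine lt_of_le_of_lt hlow ?_
    exact pow_lt_pow_right₀ hz (by omega)
  rw [Padic.add_eq_max_of_ne hlt.ne, max_eq_right hlt.le, htop]

lemma norm_le_one_of_periodic (F : ℚ_[p][X]) (hd : 2 ≤ F.natDegree)
    (hint : ∀ i, ‖F.coeff i‖ ≤ 1) (hlead : ‖F.leadingCoeff‖ = 1) (z : ℚ_[p]) (n : ℕ) (hn : 0 < n)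
    (hper : (fun x => F.eval x)^[n] z = z) : ‖z‖ ≤ 1 := by
  by_contra hz
  rw [not_le] at hz
  have step : ∀ x : ℚ_[p], 1 < ‖x‖ → ‖x‖ < ‖F.eval x‖ := by
    intro x hx
    rw [norm_eval_of_one_lt F (by omega) hint hlead x hx]
    calc ‖x‖ = ‖x‖ ^ 1 := (pow_one _).symm
      _ < ‖x‖ ^ F.natDegree := pow_lt_pow_right₀ hx (by omega)
  have key : ∀ k : ℕ, ‖z‖ < ‖(fun x => F.eval x)^[k + 1] z‖ := by
    intro k
    induction k with
    | zero => simpa using step z hz
    | succ k ih =>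
      rw [Function.iterate_succ_apply']
      exact ih.trans (step _ (hz.trans ih))
  obtain ⟨k, rfl⟩ : ∃ k, n = k + 1 := ⟨n - 1, by omega⟩
  have := key k
  rw [hper] at this
  exact lt_irrefl _ this

/-- the uniform exponent -/
def BB (p : ℕ) : ℕ := (p ^ 2).factorial * (p * (p - 1))

lemma BB_pos : 0 < BB p := by
  have := hp.out.two_le
  unfold BB
  have h1 : 0 < (p ^ 2).factorial := Nat.factorial_pos _
  have h2 : 0 < p * (p - 1) := Nat.mul_pos (by omega) (by omega)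
  exact Nat.mul_pos h1 h2

theorem field_period_bound {K : Type*} [Field K] (φ : K →+* ℚ_[p]) (f : K[X])
    (hd : 2 ≤ f.natDegree) (hint : ∀ i, ‖φ (f.coeff i)‖ ≤ 1) (hlead : ‖φ f.leadingCoeff‖ = 1)
    (b : K) (n : ℕ) (hn : 0 < n) (hper : (fun z => f.eval z)^[n] b = b) :
    (fun z => f.eval z)^[BB p] b = b := by
  have hconj : ∀ k : ℕ, ∀ x : K, φ ((fun z => f.eval z)^[k] x) =
      (fun z => (f.map φ).eval z)^[k] (φ x) := by
    intro k
    induction k with
    | zero => intro x; rfl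
    | succ k ih =>
      intro x
      rw [Function.iterate_succ_apply', Function.iterate_succ_apply', ← ih]
      simp [eval_map, Polynomial.hom_eval₂]
  have hdF : (f.map φ).natDegree = f.natDegree := natDegree_map φ
  have hintF : ∀ i, ‖(f.map φ).coeff i‖ ≤ 1 := by
    intro i; rw [coeff_map]; exact hint i
  have hleadF : ‖(f.map φ).leadingCoeff‖ = 1 := by
    rw [leadingCoeff_map]; exact hlead
  have hperF : (fun z => (f.map φ).eval z)^[n] (φ b) = φ b := by rw [← hconj, hper]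
  have hb : ‖φ b‖ ≤ 1 := norm_le_one_of_periodic (f.map φ) (by omega) hintF hleadF _ n hn hperF
  -- lift to ℤ_p
  obtain ⟨F0, hF0⟩ : ∃ F0 : ℤ_[p][X], F0.map (algebraMap ℤ_[p] ℚ_[p]) = f.map φ := by
    have : f.map φ ∈ Polynomial.lifts (algebraMap ℤ_[p] ℚ_[p]) := by
      rw [Polynomial.lifts_iff_coeff_lifts]
      intro i
      exact ⟨⟨(f.map φ).coeff i, hintF i⟩, rfl⟩
    exact (Polynomial.mem_lifts _).mp this
  set b0 : ℤ_[p] := ⟨φ b, hb⟩ with hb0
  have hb0' : algebraMap ℤ_[p] ℚ_[p] b0 = φ b := rfl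
  have hconj0 : ∀ k : ℕ, algebraMap ℤ_[p] ℚ_[p] ((fun z => F0.eval z)^[k] b0) =
      (fun z => (f.map φ).eval z)^[k] (φ b) := by
    intro k
    induction k with
    | zero => rfl
    | succ k ih =>
      rw [Function.iterate_succ_apply', Function.iterate_succ_apply', ← ih, ← hF0]
      exact (eval_map_apply (algebraMap ℤ_[p] ℚ_[p]) _).symm
  have hinj : Function.Injective (algebraMap ℤ_[p] ℚ_[p]) := Subtype.coe_injective
  have hper0 : (fun z => F0.eval z)^[n] b0 = b0 := by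
    apply hinj
    rw [hconj0, hperF, hb0']
  have h := period_bound F0 b0 n hn hper0
  apply φ.injective
  rw [hconj, ← hconj0]
  unfold BB
  rw [h, hb0']

end Pool.Agent.R394.Nark
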