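import Pool.Agent.R394.Nark.Emb
import Pool.Agent.R394.Nark.NumFld
import Pool.Agent.R394.Nark.PadicField

/-!
# The field `F = ℚ(2^(1/ℓ_0), 2^(1/ℓ_1), …)` has the Narkiewicz property (P)
-/

set_option autoImplicit false

namespace Pool.Agent.R394.Nark

open Polynomial IntermediateField

lemma norm_le_one_of_integral {p : ℕ} [hp : Fact p.Prime] (y : ℚ_[p]) (hy : IsIntegral ℤ y) :
    ‖y‖ ≤ 1 := by
  obtain ⟨P, hP, hev⟩ := hy
  by_contra hlt
  rw [not_le] at hlt
  have hdeg : 0 < P.natDegree := by
    rw [Nat.pos_iff_ne_zero]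
    intro h0
    have h1 : P = 1 := hP.natDegree_eq_zero.mp h0
    rw [h1] at hev
    simp at hev
  have hint : ∀ i, ‖(P.map (Int.castRingHom ℚ_[p])).coeff i‖ ≤ 1 := by
    intro i
    rw [coeff_map]
    exact Padic.norm_int_le_one _
  have hmon : (P.map (Int.castRingHom ℚ_[p])).Monic := hP.map _
  have h2 := norm_eval_of_one_lt (P.map (Int.castRingHom ℚ_[p]))
    (by rw [hP.natDegree_map]; exact hdeg) hint (by rw [hmon.leadingCoeff, norm_one]) y hlt
  have h3 : (P.map (Int.castRingHom ℚ_[p])).eval y = 0 := by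
    rw [eval_map]; exact hev
  rw [h3, norm_zero] at h2
  have h4 : 0 < ‖y‖ ^ (P.map (Int.castRingHom ℚ_[p])).natDegree := by positivity
  linarith

lemma norm_emb_le {p : ℕ} [hp : Fact p.Prime] {K : Type*} [Field K] (φ : K →+* ℚ_[p]) (E : ℤ)
    (hE : ¬ ((p : ℤ) ∣ E)) (x : K) (hx : IsIntegral ℤ (E • x)) : ‖φ x‖ ≤ 1 := by
  have h1 : IsIntegral ℤ (φ (E • x)) := hx.map (φ.toIntAlgHom)
  have h2 := norm_le_one_of_integral _ h1
  rw [zsmul_eq_mul, map_mul, map_intCast, norm_mul] at h2
  have h3 : ‖((E : ℤ) : ℚ_[p])‖ = 1 := by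
    have h4 : ¬ ‖((E : ℤ) : ℚ_[p])‖ < 1 := by
      rw [Padic.norm_intCast_lt_one_iff]
      exact hE
    exact le_antisymm (Padic.norm_int_le_one _) (not_lt.mp h4)
  rwa [h3, one_mul] at h2

lemma natDegree_itp {R : Type*} [CommRing R] [IsDomain R] (f : R[X]) (n : ℕ) :
    (itp f n).natDegree = f.natDegree ^ n := by
  induction n with
  | zero => rw [itp_zero, natDegree_X, pow_zero]
  | succ n ih => rw [itp_succ, natDegree_comp, ih, pow_succ, mul_comm]

/-- inclusion `K_k → F` -/
noncomputable def inc (k : ℕ) : KK k →+* FF := (inclusion (KK_le_FF k)).toRingHom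

lemma inc_coe (k : ℕ) (x : KK k) : ((inc k x : FF) : QQ) = (x : QQ) :=
  coe_inclusion (KK_le_FF k) x

lemma inc_mk (k : ℕ) (x : FF) (hx : (x : QQ) ∈ KK k) : inc k ⟨(x : QQ), hx⟩ = x :=
  Subtype.ext (inc_coe k _)

attribute [local irreducible] KK FF th inc

lemma exists_lift (f : FF[X]) : ∃ k0 : ℕ, ∀ k, k0 ≤ k →
    ∃ g : (KK k)[X], g.map (inc k) = f := by
  choose c hc using fun i : ℕ => (mem_FF ((f.coeff i : FF) : QQ)).mp (f.coeff i).2
  refine ⟨(Finset.range (f.natDegree + 1)).sup c, fun k hk => ?_⟩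
  have : f ∈ Polynomial.lifts (inc k) := by
    rw [Polynomial.lifts_iff_coeff_lifts]
    intro i
    by_cases hi : i ≤ f.natDegree
    · have h1 : c i ≤ k := le_trans (Finset.le_sup (f := c) (Finset.mem_range.mpr (by omega))) hk
      exact ⟨⟨((f.coeff i : FF) : QQ), KK_mono h1 (hc i)⟩, inc_mk k _ _⟩
    · rw [coeff_eq_zero_of_natDegree_lt (by omega)]
      exact ⟨0, map_zero _⟩
  exact (Polynomial.mem_lifts _).mp this

lemma conj_iter {K L : Type*} [Field K] [Field L] (φ : K →+* L) (f : K[X]) (k : ℕ) (x : K) :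
    φ ((fun z => f.eval z)^[k] x) = (fun z => (f.map φ).eval z)^[k] (φ x) := by
  induction k with
  | zero => rfl
  | succ k ih =>
    rw [Function.iterate_succ_apply', Function.iterate_succ_apply', ← ih, eval_map_apply]


lemma algMap_comp (k : ℕ) : (algebraMap FF QQ).comp (inc k) = algebraMap (KK k) QQ :=
  RingHom.ext fun z => inc_coe k z

lemma aeval_coe (k : ℕ) (g : (KK k)[X]) (y : FF) :
    algebraMap FF QQ ((g.map (inc k)).eval y) = aeval (algebraMap FF QQ y) g := by
  rw [eval_map, hom_eval₂, aeval_def, algMap_comp]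

/-- **Property (P) for `F`.** -/
theorem FF_propP (f : FF[X]) (hd : 2 ≤ f.natDegree) (S : Set FF)
    (hS : (fun x => f.eval x) '' S = S) : S.Finite := by
  classical
  obtain ⟨k1, hk1⟩ := exists_lift f
  set k0 := max k1 (f.natDegree + 1) with hk0
  have hel : ∀ i, k0 ≤ i → f.natDegree < el i := by
    intro i hi
    have h1 : i ≤ el i := el_strictMono.le_apply
    have h2 : f.natDegree + 1 ≤ k0 := le_max_right _ _
    omega
  -- a common denominator of the coefficients
  have hflc : f.leadingCoeff ≠ 0 := by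
    intro h
    rw [leadingCoeff_eq_zero] at h
    rw [h, natDegree_zero] at hd
    omega
  obtain ⟨E, hE0, hE⟩ : ∃ E : ℤ, E ≠ 0 ∧ ∀ z ∈ ((Finset.range (f.natDegree + 1)).image
      fun i => algebraMap FF QQ (f.coeff i)) ∪ {algebraMap FF QQ (f.leadingCoeff⁻¹)},
      IsIntegral ℤ (E • z) := by
    haveI : Algebra.IsAlgebraic ℚ QQ := AlgebraicClosure.isAlgebraic ℚ
    haveI : Algebra.IsAlgebraic ℤ QQ := (IsFractionRing.comap_isAlgebraic_iff (A := ℤ) (K := ℚ)
      (C := QQ)).mpr inferInstance
    exact Algebra.IsAlgebraic.exists_integral_multiples ℤ _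
  set j := E.natAbs with hj
  haveI hpj : Fact (pp j).Prime := ⟨pp_prime j⟩
  have hEp : ¬ ((pp j : ℤ) ∣ E) := by
    intro h
    have h1 : pp j ∣ E.natAbs := by
      rw [← Int.natCast_dvd_natCast, Int.dvd_natAbs]; exact h
    have h2 : pp j ≤ E.natAbs := Nat.le_of_dvd (Int.natAbs_pos.mpr hE0) h1
    have h3 : ∀ i, i < pp i := by
      intro i
      have h4 : i ≤ el i := el_strictMono.le_apply
      exact lt_of_le_of_lt h4 (el_lt_pp i)
    have := h3 j
    omega
  -- all points of `S` have period dividing `BB p`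
  have main : ∀ x ∈ S, (fun z => f.eval z)^[BB (pp j)] x = x := by
    intro x hx
    obtain ⟨k2, hk2⟩ := (mem_FF (x : QQ)).mp x.2
    set k := max k0 k2 with hk
    obtain ⟨g, hg⟩ := hk1 k ((le_max_left _ _).trans (le_max_left _ _))
    have hgd : g.natDegree = f.natDegree := by rw [← hg, natDegree_map]
    have hxk : (x : QQ) ∈ KK k := KK_mono (le_max_right _ _) hk2
    -- one backward step
    have step : ∀ u : KK k, inc k u ∈ S → ∃ v : KK k, inc k v ∈ S ∧ g.eval v = u := by
      intro u hu
      rw [← hS] at hu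
      obtain ⟨y, hyS, hyu⟩ := hu
      have hyu' : f.eval y = inc k u := hyu
      have hyF : (y : QQ) ∈ FF := y.2
      have hG0 : (g - C u) ≠ 0 := by
        intro h
        have h1 : (g - C u).natDegree = g.natDegree := natDegree_sub_C
        rw [h, natDegree_zero] at h1
        omega
      have hyroot : aeval (y : QQ) (g - C u) = 0 := by
        have h1 := aeval_coe k g y
        rw [hg, hyu'] at h1
        rw [map_sub, aeval_C, sub_eq_zero]
        have h2 : algebraMap FF QQ (inc k u) = algebraMap (KK k) QQ u := inc_coe k u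
        rw [← h2, h1]
        exact congrArg (fun w => aeval w g) (show (y : QQ) = algebraMap FF QQ y from rfl)
      have hyk : (y : QQ) ∈ KK k := by
        apply mem_of_small_degree k (y : QQ) hyF (g - C u) hG0 hyroot
        intro i hi
        rw [natDegree_sub_C, hgd]
        exact hel i ((le_max_left _ _).trans hi)
      refine ⟨⟨(y : QQ), hyk⟩, ?_, ?_⟩
      · rw [inc_mk k y hyk]; exact hyS
      · apply (inc k).injective
        rw [← eval_map_apply, hg, inc_mk k y hyk]
        exact hyu'
    -- a complete backward orbit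
    choose v hvS hv using step
    let u : ℕ → {u : KK k // inc k u ∈ S} := fun n => Nat.rec
      ⟨⟨(x : QQ), hxk⟩, by rw [inc_mk k x hxk]; exact hx⟩
      (fun _ w => ⟨v w.1 w.2, hvS w.1 w.2⟩) n
    have hu0 : inc k (u 0).1 = x := inc_mk k x hxk
    have hus : ∀ n, g.eval (u (n + 1)).1 = (u n).1 := fun n => hv (u n).1 (u n).2
    obtain ⟨n, hn, hper⟩ := periodic_of_backward g (by omega) (fun n => (u n).1) hus
    -- embedding into `ℚ_p`
    obtain ⟨φ⟩ := exists_emb k j
    have hcoef : ∀ i, ‖φ (g.coeff i)‖ ≤ 1 := by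
      intro i
      by_cases hi : i ≤ f.natDegree
      · apply norm_emb_le φ E hEp
        rw [← isIntegral_algebraMap_iff (algebraMap (KK k) QQ).injective]
        have h1 := hE (algebraMap FF QQ (f.coeff i)) (Finset.mem_union_left _
          (Finset.mem_image.mpr ⟨i, Finset.mem_range.mpr (by omega), rfl⟩))
        rw [map_zsmul]
        have h2 : algebraMap (KK k) QQ (g.coeff i) = algebraMap FF QQ (f.coeff i) := by
          rw [← hg, coeff_map, ← algMap_comp]; rfl
        rw [h2]
        exact h1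
      · rw [coeff_eq_zero_of_natDegree_lt (by omega), map_zero, norm_zero]
        exact zero_le_one
    have hglc0 : g.leadingCoeff ≠ 0 := by
      intro h
      apply hflc
      rw [← hg, leadingCoeff_map, h, map_zero]
    have hlead : ‖φ g.leadingCoeff‖ = 1 := by
      have h1 : ‖φ g.leadingCoeff‖ ≤ 1 := hcoef _
      have h2 : ‖φ (g.leadingCoeff⁻¹)‖ ≤ 1 := by
        apply norm_emb_le φ E hEp
        rw [← isIntegral_algebraMap_iff (algebraMap (KK k) QQ).injective]
        have h1 := hE (algebraMap FF QQ (f.leadingCoeff⁻¹)) (Finset.mem_union_right _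
          (Finset.mem_singleton_self _))
        rw [map_zsmul]
        have h2 : algebraMap (KK k) QQ (g.leadingCoeff⁻¹) = algebraMap FF QQ (f.leadingCoeff⁻¹) := by
          rw [← hg, leadingCoeff_map, ← algMap_comp, map_inv₀, map_inv₀]; rfl
        rw [h2]
        exact h1
      rw [map_inv₀, norm_inv] at h2
      have h3 : 0 < ‖φ g.leadingCoeff‖ := norm_pos_iff.mpr ((map_ne_zero φ).mpr hglc0)
      have h4 := (inv_le_one₀ h3).mp h2
      exact le_antisymm h1 h4
    have hB := field_period_bound φ g (by omega) hcoef hlead (u 0).1 n hn hper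
    have h5 := congrArg (inc k) hB
    rw [conj_iter, hg, hu0] at h5
    exact h5
  -- finitely many such points
  have hpoly : (itp f (BB (pp j)) - X) ≠ 0 := by
    intro h
    rw [sub_eq_zero] at h
    have h1 := natDegree_itp f (BB (pp j))
    rw [h, natDegree_X] at h1
    have h2 : 1 < f.natDegree ^ BB (pp j) := Nat.one_lt_pow (BB_pos (p := pp j)).ne' (by omega)
    omega
  refine Set.Finite.subset ((itp f (BB (pp j)) - X).roots.toFinset.finite_toSet) ?_
  intro x hx
  rw [Finset.mem_coe, Multiset.mem_toFinset, mem_roots hpoly, IsRoot, eval_sub, eval_X, itp_eval,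
    main x hx, sub_self]

end Pool.Agent.R394.Nark
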