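import Pool.Agent.R394.Nark.Seq

/-!
# The fields `K_k = ℚ(2^(1/N_k))`
-/

set_option autoImplicit false

namespace Pool.Agent.R394.Nark

open Polynomial IntermediateField

/-- algebraic closure of `ℚ` -/
abbrev QQ : Type := AlgebraicClosure ℚ

lemma exists_root_el (k : ℕ) (t : QQ) : ∃ z : QQ, z ^ el k = t :=
  IsAlgClosed.exists_pow_nat_eq t (el_prime k).pos

/-- the compatible system of roots -/
noncomputable def th : ℕ → QQ
  | 0 => 2
  | k + 1 => (exists_root_el k (th k)).choose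

lemma th_succ (k : ℕ) : th (k + 1) ^ el k = th k := (exists_root_el k (th k)).choose_spec

lemma th_pow (k : ℕ) : th k ^ Nn k = 2 := by
  induction k with
  | zero => simp [th, Nn_zero]
  | succ k ih => rw [Nn_succ, mul_comm, pow_mul, th_succ, ih]

lemma irr (k : ℕ) : Irreducible (X ^ Nn k - C (2 : ℚ)) := by
  apply X_pow_sub_C_irreducible_of_odd (Nn_odd k)
  intro p hp _ b hb
  haveI : Fact (Nat.Prime 2) := ⟨Nat.prime_two⟩
  have hb0 : b ≠ 0 := by
    rintro rfl
    rw [zero_pow hp.ne_zero] at hb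
    norm_num at hb
  have h1 : padicValRat 2 (b ^ p) = 1 := by
    rw [hb]
    exact padicValRat.self (by norm_num)
  rw [padicValRat.pow] at h1
  have h2 : (p : ℤ) ∣ 1 := ⟨_, h1.symm⟩
  have h3 : p ∣ 1 := by exact_mod_cast h2
  exact hp.one_lt.ne' (Nat.dvd_one.mp h3)

lemma minpoly_th (k : ℕ) : minpoly ℚ (th k) = X ^ Nn k - C (2 : ℚ) := by
  symm
  apply minpoly.eq_of_irreducible_of_monic (irr k)
  · simp [th_pow]
  · exact monic_X_pow_sub_C _ (Nn_pos k).ne'

lemma th_integral (k : ℕ) : IsIntegral ℚ (th k) :=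
  ⟨X ^ Nn k - C (2 : ℚ), monic_X_pow_sub_C _ (Nn_pos k).ne', by simp [th_pow]⟩

/-- `K_k` -/
noncomputable def KK (k : ℕ) : IntermediateField ℚ QQ := ℚ⟮th k⟯

instance (k : ℕ) : FiniteDimensional ℚ (KK k) := adjoin.finiteDimensional (th_integral k)

instance (k : ℕ) : NumberField (KK k) := {}

lemma finrank_KK (k : ℕ) : Module.finrank ℚ (KK k) = Nn k := by
  rw [KK, adjoin.finrank (th_integral k), minpoly_th, natDegree_X_pow_sub_C]

lemma th_mem (k : ℕ) : th k ∈ KK k := mem_adjoin_simple_self ℚ (th k)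

lemma KK_le_succ (k : ℕ) : KK k ≤ KK (k + 1) := by
  rw [KK, adjoin_simple_le_iff, ← th_succ k]
  exact pow_mem (th_mem (k + 1)) _

lemma KK_mono : Monotone KK := monotone_nat_of_le_succ KK_le_succ

/-- the field `F = ℚ(2^(1/ℓ_0), 2^(1/ℓ_1), …)` -/
noncomputable def FF : IntermediateField ℚ QQ := ⨆ k, KK k

lemma mem_FF (x : QQ) : x ∈ FF ↔ ∃ k, x ∈ KK k := by
  rw [FF, ← SetLike.mem_coe, coe_iSup_of_directed (KK_mono.directed_le), Set.mem_iUnion]
  rfl

lemma KK_le_FF (k : ℕ) : KK k ≤ FF := le_iSup KK k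

/-- `[K_m : K_k]` -/
lemma prod_el (k m : ℕ) (h : k ≤ m) : Nn m = Nn k * ∏ i ∈ Finset.Ico k m, el i := by
  induction m with
  | zero =>
    have : k = 0 := by omega
    subst this
    simp
  | succ m ih =>
    rcases Nat.lt_or_ge m k with h1 | h1
    · have : k = m + 1 := by omega
      subst this
      simp
    · rw [Nn_succ, ih h1, Finset.prod_Ico_succ_top h1, mul_assoc]

/-- If `y ∈ F` satisfies a polynomial equation over `K_k` of degree `d` smaller than all `ℓ_i`,
`i ≥ k`, then `y ∈ K_k`. -/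
lemma mem_of_small_degree (k : ℕ) (y : QQ) (hy : y ∈ FF) (g : (KK k)[X]) (hg0 : g ≠ 0)
    (hgy : aeval y g = 0) (hdeg : ∀ i, k ≤ i → g.natDegree < el i) : y ∈ KK k := by
  obtain ⟨m, hm⟩ := (mem_FF y).mp hy
  rcases Nat.lt_or_ge m k with h1 | hkm
  · exact KK_mono h1.le hm
  have hle : KK k ≤ KK m := KK_mono hkm
  set L := extendScalars hle with hL
  have hyL : y ∈ L := hm
  -- degree of L over KK k
  have hfr : Module.finrank (KK k) L = ∏ i ∈ Finset.Ico k m, el i := by
    have h1 : Module.finrank ℚ (KK k) * Module.finrank (KK k) L = Module.finrank ℚ L :=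
      Module.finrank_mul_finrank ℚ (KK k) L
    have h2 : Module.finrank ℚ L = Module.finrank ℚ (KK m) := rfl
    rw [h2, finrank_KK, finrank_KK, prod_el k m hkm] at h1
    exact Nat.eq_of_mul_eq_mul_left (Nn_pos k) h1
  have hyint : IsIntegral (KK k) y := by
    have h0 : IsAlgebraic ℚ y := (AlgebraicClosure.isAlgebraic ℚ).isAlgebraic y
    exact h0.isIntegral.tower_top
  have hyint' : IsIntegral (KK k) (⟨y, hyL⟩ : L) := by
    rw [← isIntegral_algebraMap_iff (algebraMap L QQ).injective]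
    exact hyint
  have hdvd : (minpoly (KK k) y).natDegree ∣ ∏ i ∈ Finset.Ico k m, el i := by
    have h3 : (minpoly (KK k) (⟨y, hyL⟩ : L)).natDegree ∣ Module.finrank (KK k) L :=
      minpoly.degree_dvd hyint'
    have h4 : minpoly (KK k) y = minpoly (KK k) (⟨y, hyL⟩ : L) :=
      minpoly.algebraMap_eq (algebraMap L QQ).injective (⟨y, hyL⟩ : L)
    rw [h4, ← hfr]
    exact h3
  have hle2 : (minpoly (KK k) y).natDegree ≤ g.natDegree :=
    natDegree_le_of_dvd (minpoly.dvd _ _ hgy) hg0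
  have hone : (minpoly (KK k) y).natDegree = 1 := by
    by_contra hne
    obtain ⟨q, hq, hqd⟩ := Nat.exists_prime_and_dvd hne
    have h5 : q ∣ ∏ i ∈ Finset.Ico k m, el i := hqd.trans hdvd
    rw [Prime.dvd_finset_prod_iff hq.prime] at h5
    obtain ⟨i, hi, hqi⟩ := h5
    rw [Finset.mem_Ico] at hi
    have h6 : q = el i := (Nat.prime_dvd_prime_iff_eq hq (el_prime i)).mp hqi
    have h7 : q ≤ (minpoly (KK k) y).natDegree :=
      Nat.le_of_dvd (minpoly.natDegree_pos hyint) hqd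
    have h8 := hdeg i hi.1
    omega
  rw [minpoly.natDegree_eq_one_iff] at hone
  obtain ⟨z, hz⟩ := hone
  rw [← hz]
  exact z.2

end Pool.Agent.R394.Nark
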