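import Mathlib

/-!
# Two interlaced sequences of primes `ℓ_k`, `p_k` with `gcd(ℓ_j, p_k (p_k - 1)) = 1` for all `j, k`
-/

set_option autoImplicit false

namespace Pool.Agent.R394.Nark

lemma step_exists (N B : ℕ) (hN : Odd N) : ∃ lp : ℕ × ℕ, lp.1.Prime ∧ lp.2.Prime ∧ B < lp.1 ∧
    2 < lp.1 ∧ lp.1 < lp.2 ∧ ((lp.2 : ℕ) : ZMod (N * lp.1)) = 2 := by
  obtain ⟨l, hl, hlp⟩ := Nat.exists_infinite_primes (max B 2 + 1)
  have hB : B < l := lt_of_le_of_lt (le_max_left B 2) (by omega)
  have h2 : 2 < l := lt_of_le_of_lt (le_max_right B 2) (by omega)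
  have hodd : Odd (N * l) := hN.mul (hlp.odd_of_ne_two (by omega))
  haveI : NeZero (N * l) := ⟨by rcases hodd with ⟨c, hc⟩; omega⟩
  have hu : IsUnit (2 : ZMod (N * l)) := by
    have : ((2 : ℕ) : ZMod (N * l)) = 2 := by norm_num
    rw [← this, ZMod.isUnit_iff_coprime]
    exact (Nat.coprime_two_left).mpr hodd
  obtain ⟨q, hq, hqp, he⟩ := Nat.forall_exists_prime_gt_and_eq_mod hu l
  exact ⟨(l, q), hlp, hqp, hB, h2, hq, he⟩

open Classical in
/-- the choice of the next pair of primes -/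
noncomputable def nextPair (s : ℕ × ℕ) : ℕ × ℕ :=
  if h : Odd s.1 then (step_exists s.1 s.2 h).choose else (3, 5)

lemma nextPair_spec (s : ℕ × ℕ) (h : Odd s.1) : (nextPair s).1.Prime ∧ (nextPair s).2.Prime ∧
    s.2 < (nextPair s).1 ∧ 2 < (nextPair s).1 ∧ (nextPair s).1 < (nextPair s).2 ∧
    (((nextPair s).2 : ℕ) : ZMod (s.1 * (nextPair s).1)) = 2 := by
  unfold nextPair
  rw [dif_pos h]
  exact (step_exists s.1 s.2 h).choose_spec

/-- the state after `k` steps: the product of the `ℓ_i`, and the last `p_i` -/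
noncomputable def st : ℕ → ℕ × ℕ
  | 0 => (1, 2)
  | k + 1 => ((st k).1 * (nextPair (st k)).1, (nextPair (st k)).2)

/-- `N_k = ∏_{i<k} ℓ_i` -/
noncomputable def Nn (k : ℕ) : ℕ := (st k).1

/-- the primes `ℓ_k` -/
noncomputable def el (k : ℕ) : ℕ := (nextPair (st k)).1

/-- the primes `p_k` -/
noncomputable def pp (k : ℕ) : ℕ := (nextPair (st k)).2

lemma st_odd (k : ℕ) : Odd (st k).1 := by
  induction k with
  | zero => simp [st]
  | succ k ih =>
    have h := nextPair_spec (st k) ih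
    exact ih.mul (h.1.odd_of_ne_two (by omega))

lemma Nn_odd (k : ℕ) : Odd (Nn k) := st_odd k

lemma Nn_zero : Nn 0 = 1 := rfl

lemma Nn_succ (k : ℕ) : Nn (k + 1) = Nn k * el k := rfl

lemma el_prime (k : ℕ) : (el k).Prime := (nextPair_spec _ (st_odd k)).1

lemma pp_prime (k : ℕ) : (pp k).Prime := (nextPair_spec _ (st_odd k)).2.1

lemma two_lt_el (k : ℕ) : 2 < el k := (nextPair_spec _ (st_odd k)).2.2.2.1

lemma el_lt_pp (k : ℕ) : el k < pp k := (nextPair_spec _ (st_odd k)).2.2.2.2.1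

lemma pp_lt_el_succ (k : ℕ) : pp k < el (k + 1) := (nextPair_spec _ (st_odd (k + 1))).2.2.1

lemma pp_eq (k : ℕ) : ((pp k : ℕ) : ZMod (Nn (k + 1))) = 2 :=
  (nextPair_spec _ (st_odd k)).2.2.2.2.2

lemma Nn_pos (k : ℕ) : 0 < Nn k := (Nn_odd k).pos

lemma el_strictMono : StrictMono el :=
  strictMono_nat_of_lt_succ fun k => (el_lt_pp k).trans (pp_lt_el_succ k)

lemma pp_strictMono : StrictMono pp :=
  strictMono_nat_of_lt_succ fun k => (pp_lt_el_succ k).trans (el_lt_pp (k + 1))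

lemma el_dvd_Nn (j k : ℕ) (h : j < k) : el j ∣ Nn k := by
  induction k with
  | zero => omega
  | succ k ih =>
    rw [Nn_succ]
    rcases Nat.lt_succ_iff_lt_or_eq.mp h with h1 | h1
    · exact dvd_mul_of_dvd_left (ih h1) _
    · subst h1; exact dvd_mul_left _ _

lemma el_coprime (j k : ℕ) : Nat.Coprime (el j) (pp k * (pp k - 1)) := by
  have hp2 := (pp_prime k).two_le
  rw [Nat.Prime.coprime_iff_not_dvd (el_prime j)]
  intro h
  rw [Nat.Prime.dvd_mul (el_prime j)] at h
  rcases Nat.lt_or_ge k j with hkj | hkj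
  · -- `el j > pp k`
    have h1 : pp k < el j := lt_of_lt_of_le (pp_lt_el_succ k) (el_strictMono.monotone hkj)
    rcases h with h | h
    · exact absurd (Nat.le_of_dvd (by omega) h) (by omega)
    · exact absurd (Nat.le_of_dvd (by omega) h) (by omega)
  · have hdvd : el j ∣ Nn (k + 1) := el_dvd_Nn j (k + 1) (by omega)
    have he : ((pp k : ℕ) : ZMod (el j)) = 2 := by
      have := congrArg (ZMod.castHom hdvd (ZMod (el j))) (pp_eq k)
      rw [map_natCast, map_ofNat] at this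
      exact this
    haveI : Fact (el j).Prime := ⟨el_prime j⟩
    have h2 : ¬ (el j ∣ 2) := fun hh => absurd (Nat.le_of_dvd (by norm_num) hh)
      (by have := two_lt_el j; omega)
    rcases h with h | h
    · rw [(ZMod.natCast_eq_zero_iff _ _).mpr h] at he
      apply h2
      rw [← ZMod.natCast_eq_zero_iff]
      rw [Nat.cast_ofNat]
      exact he.symm
    · have h3 : ((pp k - 1 : ℕ) : ZMod (el j)) = 0 := (ZMod.natCast_eq_zero_iff _ _).mpr h
      rw [Nat.cast_sub (by omega), he, Nat.cast_one] at h3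
      have h4 : (1 : ZMod (el j)) = 0 := by rw [← h3]; norm_num
      exact one_ne_zero h4

lemma Nn_coprime (j k : ℕ) : Nat.Coprime (Nn j) (pp k * (pp k - 1)) := by
  induction j with
  | zero => simp [Nn_zero]
  | succ j ih =>
    rw [Nn_succ]
    exact Nat.Coprime.mul_left ih (el_coprime j k)

end Pool.Agent.R394.Nark
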